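import Mathlib
import Pool.Agent.Helper895.AltComm

set_option autoImplicit false

namespace Pool.Agent.Results.MP_20522e_al.CentralIdealsThree

/-- `MonoidAlgebra ℤ (FreeMagma X)` is the free nonassociative ring (without unit) on `X`. This
relation lists the alternative laws `(a a) b = a (a b)` and `(b a) a = b (a a)` in it. -/
def AltRel (X : Type) (p q : MonoidAlgebra ℤ (FreeMagma X)) : Prop :=
  ∃ a b : MonoidAlgebra ℤ (FreeMagma X),
    (p = (a * a) * b ∧ q = a * (a * b)) ∨ (p = (b * a) * a ∧ q = b * (a * a))

/-- The free alternative ring on `X`: the quotient of the free nonassociative ring by the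
congruence generated by the alternative laws. -/
abbrev AltFree (X : Type) := (ringConGen (AltRel X)).Quotient

/-- The commutative centre: all elements commuting with every element. -/
def commCenter (A : Type) [Mul A] : Set A := {a | ∀ b : A, a * b = b * a}

/-- Sanity check: the quotient is alternative. -/
theorem altFree_alternative (X : Type) (x y : AltFree X) :
    (x * x) * y = x * (x * y) ∧ (y * x) * x = y * (x * x) := by
  obtain ⟨a, rfl⟩ := Quotient.exists_rep x
  obtain ⟨b, rfl⟩ := Quotient.exists_rep y
  exact ⟨(RingCon.eq _).mpr (RingCon.le_ringConGen _ _ ⟨a, b, Or.inl ⟨rfl, rfl⟩⟩),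
    (RingCon.eq _).mpr (RingCon.le_ringConGen _ _ ⟨a, b, Or.inr ⟨rfl, rfl⟩⟩)⟩

/-- Sanity check: the generators do not commute, so the ring is not commutative. -/
theorem altFree_three_not_comm : ∃ x y : AltFree (Fin 3), x * y ≠ y * x := by
  have hc : Helper895.Alt.IsAltCon (ringConGen (AltRel (Fin 3))) := Helper895.Alt.isAltCon_gen
  refine ⟨Helper895.Alt.gn _ 0, Helper895.Alt.gn _ 1, fun h => ?_⟩
  have h' := congrArg (Helper895.Alt.evC hc (Helper895.Alt.fam fun _ => 1)) h
  rw [map_mul, map_mul, Helper895.Alt.evC_gn, Helper895.Alt.evC_gn] at h'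
  simp only [Helper895.Alt.fam, Helper895.Alt.Oct.mul_def, Helper895.Alt.Oct.mk.injEq] at h'
  norm_num at h'

/-- There is a set `X` with `|X| = 3` such that every two-sided ideal of the free alternative ring
on `X` contained in its commutative centre is zero. -/
theorem result : ∃ X : Type, Cardinal.mk X = 3 ∧
    ∀ I : TwoSidedIdeal (AltFree X), (∀ z ∈ I, z ∈ commCenter (AltFree X)) → I = ⊥ := by
  refine ⟨Fin 3, by simp, fun I hI => ?_⟩
  rw [eq_bot_iff]
  intro z hz
  have h0 : z = 0 := Helper895.Alt.ideal_comm Helper895.Alt.isAltCon_gen I hI hz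
  rw [h0]
  exact TwoSidedIdeal.zero_mem _

end Pool.Agent.Results.MP_20522e_al.CentralIdealsThree
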